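import Pool.Agent.Y580.LB.Stm

/-! Job LB-DFS of helper580. -/

set_option autoImplicit false

namespace Pool.Agent.Y43.LB

open Finset Pool.Agent.Y580.LB

section

variable {n : ℕ} {G : SimpleGraph (Fin n)}

/-- rooted forests in `G`, with the depth function `h` and the parent function `p` -/
def Fst (G : SimpleGraph (Fin n)) (h : Fin n → ℕ) (p : Fin n → Fin n) : Prop :=
  ∀ v, h v = 0 ∨ (h v = h (p v) + 1 ∧ G.Adj v (p v))

theorem iter_h {h : Fin n → ℕ} {p : Fin n → Fin n} (hF : Fst G h p) (v : Fin n) :
    ∀ i, i ≤ h v → h (p^[i] v) = h v - i := by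
  intro i
  induction i with
  | zero => intro _; rfl
  | succ i ih =>
    intro hi
    have h1 := ih (by omega)
    rw [Function.iterate_succ_apply']
    rcases hF (p^[i] v) with h2 | ⟨h2, _⟩
    · omega
    · omega

theorem h_lt {h : Fin n → ℕ} {p : Fin n → Fin n} (hF : Fst G h p) (v : Fin n) : h v < n := by
  have h1 : Function.Injective fun i : Fin (h v + 1) => p^[(i : ℕ)] v := by
    intro i j hij
    have h2 : h (p^[(i : ℕ)] v) = h (p^[(j : ℕ)] v) := congrArg h hij
    have hi := i.2
    have hj := j.2
    rw [iter_h hF v i (by omega), iter_h hF v j (by omega)] at h2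
    apply Fin.ext
    omega
  have h2 := Fintype.card_le_of_injective _ h1
  rw [Fintype.card_fin, Fintype.card_fin] at h2
  omega

/-- `v` is an ancestor of `w` -/
def Anc (h : Fin n → ℕ) (p : Fin n → Fin n) (v w : Fin n) : Prop :=
  h v ≤ h w ∧ p^[h w - h v] w = v

theorem improve {h : Fin n → ℕ} {p : Fin n → Fin n} (hF : Fst G h p) {u v : Fin n}
    (huv : G.Adj v u) (hle : h v ≤ h u) (hn : ¬ Anc h p v u) :
    ∃ (h' : Fin n → ℕ) (p' : Fin n → Fin n), Fst G h' p' ∧ ∑ w, h w < ∑ w, h' w := by
  classical
  let h' : Fin n → ℕ := fun w => if Anc h p v w then h w + (h u + 1 - h v) else h w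
  let p' : Fin n → Fin n := fun w => if w = v then u else p w
  have hv : Anc h p v v := ⟨le_rfl, by rw [Nat.sub_self]; rfl⟩
  have hv' : h' v = h u + 1 := by
    show (if Anc h p v v then h v + (h u + 1 - h v) else h v) = h u + 1
    rw [if_pos hv]
    omega
  have hu' : h' u = h u := if_neg hn
  refine ⟨h', p', ?_, ?_⟩
  · intro w
    by_cases hwv : w = v
    · subst hwv
      right
      have hp : p' w = u := if_pos rfl
      rw [hp, hv', hu']
      exact ⟨rfl, huv⟩
    · have hp : p' w = p w := if_neg hwv
      rw [hp]
      by_cases hw : Anc h p v w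
      · right
        have hw' : h' w = h w + (h u + 1 - h v) := if_pos hw
        have hlt : h v < h w := by
          rcases hw.1.eq_or_lt with h1 | h1
          · exfalso
            have h2 := hw.2
            rw [← h1, Nat.sub_self] at h2
            exact hwv h2
          · exact h1
        obtain ⟨h2, h3⟩ := (hF w).resolve_left (by omega)
        have h4 : Anc h p v (p w) := by
          refine ⟨by omega, ?_⟩
          rw [← Function.iterate_succ_apply]
          have h5 : (h (p w) - h v).succ = h w - h v := by omega
          rw [h5]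
          exact hw.2
        have hpw' : h' (p w) = h (p w) + (h u + 1 - h v) := if_pos h4
        rw [hw', hpw']
        exact ⟨by omega, h3⟩
      · have hw' : h' w = h w := if_neg hw
        rw [hw']
        rcases hF w with h2 | ⟨h2, h3⟩
        · exact Or.inl h2
        · right
          have h4 : ¬ Anc h p v (p w) := by
            rintro ⟨h5, h6⟩
            apply hw
            refine ⟨by omega, ?_⟩
            rw [← Function.iterate_succ_apply] at h6
            have h7 : (h (p w) - h v).succ = h w - h v := by omega
            rw [h7] at h6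
            exact h6
          have hpw' : h' (p w) = h (p w) := if_neg h4
          rw [hpw']
          exact ⟨h2, h3⟩
  · apply Finset.sum_lt_sum
    · intro w _
      show h w ≤ if Anc h p v w then h w + (h u + 1 - h v) else h w
      split_ifs
      · omega
      · exact le_rfl
    · exact ⟨v, Finset.mem_univ v, by rw [hv']; omega⟩

theorem exists_max (G : SimpleGraph (Fin n)) : ∃ (h : Fin n → ℕ) (p : Fin n → Fin n), Fst G h p ∧
    ∀ u v, G.Adj v u → h v ≤ h u → Anc h p v u := by
  by_contra hcon
  push Not at hcon
  have h1 : ∀ s : ℕ, ∃ (h : Fin n → ℕ) (p : Fin n → Fin n), Fst G h p ∧ s ≤ ∑ w, h w := by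
    intro s
    induction s with
    | zero => exact ⟨fun _ => 0, id, fun _ => Or.inl rfl, Nat.zero_le _⟩
    | succ s ih =>
      obtain ⟨h, p, hF, hs⟩ := ih
      obtain ⟨u, v, h2, h3, h4⟩ := hcon h p hF
      obtain ⟨h', p', hF', h5⟩ := improve hF h2 h3 h4
      exact ⟨h', p', hF', by omega⟩
  obtain ⟨h, p, hF, hs⟩ := h1 (n * n + 1)
  have h2 : ∑ w : Fin n, h w ≤ ∑ _w : Fin n, n := Finset.sum_le_sum fun w _ => (h_lt hF w).le
  rw [Finset.sum_const, Finset.card_univ, Fintype.card_fin, smul_eq_mul] at h2
  omega

end

theorem dfs : S_DFS := by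
  intro n G hG
  obtain ⟨h, p, hF, hA⟩ := exists_max G
  refine ⟨h, fun x => p (p x), ?_⟩
  have main : ∀ x y, G.Adj x y → h y ≤ h x → h x % 2 ≠ h y % 2 ∨ y = p (p x) := by
    intro x y hxy hle
    by_cases hpar : h x % 2 = h y % 2
    · right
      obtain ⟨h1, h2⟩ := hA x y hxy.symm hle
      obtain ⟨m, hm⟩ : ∃ m, h x - h y = m := ⟨_, rfl⟩
      rw [hm] at h2
      have hm0 : m ≠ 0 := by
        rintro rfl
        exact hxy.ne h2
      have hmx : m ≤ h x := by omega
      have heven : m % 2 = 0 := by omega
      by_cases hm2 : m = 2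
      · rw [hm2] at h2
        exact h2.symm
      · exfalso
        apply hG (m + 1) (by omega) (by rw [Nat.odd_iff]; omega)
        refine ⟨fun i => p^[(i : ℕ)] x, ?_, ?_⟩
        · intro i j hij
          have h3 : h (p^[(i : ℕ)] x) = h (p^[(j : ℕ)] x) := congrArg h hij
          have hi := i.2
          have hj := j.2
          rw [iter_h hF x i (by omega), iter_h hF x j (by omega)] at h3
          apply Fin.ext
          omega
        · rintro ⟨i, hi⟩
          rcases Nat.lt_or_ge i m with h3 | h3
          · rw [finRotate_of_lt h3]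
            show G.Adj (p^[i] x) (p^[i + 1] x)
            rw [Function.iterate_succ_apply']
            have h4 := iter_h hF x i (by omega)
            rcases hF (p^[i] x) with h5 | ⟨_, h5⟩
            · omega
            · exact h5
          · obtain rfl : i = m := by omega
            rw [finRotate_last']
            show G.Adj (p^[i] x) x
            rw [h2]
            exact hxy.symm
    · exact Or.inl hpar
  intro x y hxy
  rcases Nat.le_total (h y) (h x) with h1 | h1
  · rcases main x y hxy h1 with h2 | h2
    · exact Or.inl h2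
    · exact Or.inr (Or.inl h2)
  · rcases main y x hxy.symm h1 with h2 | h2
    · exact Or.inl (fun h3 => h2 h3.symm)
    · exact Or.inr (Or.inr h2)

end Pool.Agent.Y43.LB
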