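import Pool.Agent.Y580.LB.Stm

/-! Job LB-RED of helper580. -/

set_option autoImplicit false

namespace Pool.Agent.Y43.LB

open Finset Pool.Agent.Y580.LB

section

variable {α : Type} [DecidableEq α]

theorem ne_of_card3 {a b c : α} (h : ({a, b, c} : Finset α).card = 3) : a ≠ b ∧ a ≠ c ∧ b ≠ c := by
  refine ⟨?_, ?_, ?_⟩
  · rintro rfl
    rw [Finset.insert_idem] at h
    have := Finset.card_le_two (a := a) (b := c)
    omega
  · rintro rfl
    rw [Finset.insert_comm, Finset.pair_eq_singleton] at h
    have := Finset.card_le_two (a := b) (b := a)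
    omega
  · rintro rfl
    rw [Finset.pair_eq_singleton] at h
    have := Finset.card_le_two (a := a) (b := b)
    omega

omit [DecidableEq α] in
theorem inj5 {x y z a b : α} (h1 : x ≠ y) (h2 : x ≠ z) (h3 : y ≠ z) (h4 : x ≠ a) (h5 : x ≠ b)
    (h6 : y ≠ a) (h7 : y ≠ b) (h8 : z ≠ a) (h9 : z ≠ b) (h10 : a ≠ b) :
    Function.Injective ![x, y, z, a, b] := by
  have key : ∀ i j : Fin 5, i < j → ![x, y, z, a, b] i ≠ ![x, y, z, a, b] j := by
    intro i j hij
    fin_cases i <;> fin_cases j <;> first
      | exact absurd hij (by decide)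
      | assumption
  intro i j hij
  rcases lt_trichotomy i j with h | h | h
  · exact absurd hij (key i j h)
  · exact h
  · exact absurd hij.symm (key j i h)

/-- every 3-set comes from at least six ordered triples -/
theorem six_le [Fintype α] (e : Finset α) (he : e.card = 3) :
    6 ≤ (univ.filter fun p : α × α × α => ({p.1, p.2.1, p.2.2} : Finset α) = e).card := by
  obtain ⟨a, b, c, hab, hac, hbc, rfl⟩ := Finset.card_eq_three.1 he
  have h1 : ({(a, b, c), (a, c, b), (b, a, c), (b, c, a), (c, a, b), (c, b, a)} :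
      Finset (α × α × α)).card = 6 := by
    rw [card_insert_of_notMem, card_insert_of_notMem, card_insert_of_notMem,
      card_insert_of_notMem, card_insert_of_notMem, card_singleton]
    all_goals
      simp only [mem_insert, mem_singleton, Prod.mk.injEq, not_or, not_and]
      tauto
  rw [← h1]
  apply card_le_card
  intro p hp
  simp only [mem_insert, mem_singleton] at hp
  rw [mem_filter]
  refine ⟨mem_univ p, ?_⟩
  rcases hp with rfl | rfl | rfl | rfl | rfl | rfl
  · rfl
  · show ({a, c, b} : Finset α) = {a, b, c}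
    rw [Finset.pair_comm c b]
  · show ({b, a, c} : Finset α) = {a, b, c}
    rw [Finset.insert_comm]
  · show ({b, c, a} : Finset α) = {a, b, c}
    rw [Finset.pair_comm c a, Finset.insert_comm]
  · show ({c, a, b} : Finset α) = {a, b, c}
    rw [Finset.insert_comm, Finset.pair_comm c b]
  · show ({c, b, a} : Finset α) = {a, b, c}
    rw [Finset.pair_comm b a, Finset.insert_comm, Finset.pair_comm c b]

end

theorem red : S_RED := by
  intro hDFS hFLAG n H hH
  classical
  obtain ⟨hH3, hHF, hHC⟩ := hH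
  -- the links
  let L : Fin n → SimpleGraph (Fin n) := fun v =>
    { Adj := fun x y => x ≠ y ∧ ({v, x, y} : Finset (Fin n)) ∈ H
      symm := ⟨fun x y h => ⟨h.1.symm, by rw [Finset.pair_comm y x]; exact h.2⟩⟩
      loopless := ⟨fun x h => h.1 rfl⟩ }
  have hL : ∀ v x y, (L v).Adj x y ↔ x ≠ y ∧ ({v, x, y} : Finset (Fin n)) ∈ H :=
    fun v x y => Iff.rfl
  have hcol : ∀ v, ∃ (h : Fin n → ℕ) (g : Fin n → Fin n), ∀ x y, (L v).Adj x y →
      h x % 2 ≠ h y % 2 ∨ y = g x ∨ x = g y := by
    intro v
    apply hDFS n (L v)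
    intro k hk hodd
    rintro ⟨c, hcinj, hc⟩
    apply hHC v k hk hodd
    refine ⟨c, hcinj, fun i => ?_, fun i => (hc i).2⟩
    exact (ne_of_card3 (hH3 _ (hc i).2)).1.symm
  choose h g hhg using hcol
  let c : Fin n → Fin n → ℕ := fun v x => h v x % 2
  let H' : Finset (Finset (Fin n)) := H.filter fun e =>
    ∀ v x y, e = ({v, x, y} : Finset (Fin n)) → c v x ≠ c v y
  have hbad : (H \ H').card ≤ n * n := by
    have h1 : H \ H' ⊆ (univ : Finset (Fin n × Fin n)).image
        fun p => ({p.1, p.2, g p.1 p.2} : Finset (Fin n)) := by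
      intro e he
      obtain ⟨heH, heH'⟩ := mem_sdiff.1 he
      have h2 : ¬ ∀ v x y, e = ({v, x, y} : Finset (Fin n)) → c v x ≠ c v y :=
        fun h3 => heH' (mem_filter.2 ⟨heH, h3⟩)
      push Not at h2
      obtain ⟨v, x, y, rfl, h3⟩ := h2
      have h4 := ne_of_card3 (hH3 _ heH)
      rcases hhg v x y ((hL v x y).2 ⟨h4.2.2, heH⟩) with h5 | h5 | h5
      · exact absurd h3 h5
      · rw [mem_image]
        exact ⟨(v, x), mem_univ _, by rw [h5]⟩
      · rw [mem_image]
        refine ⟨(v, y), mem_univ _, ?_⟩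
        show ({v, y, g v y} : Finset (Fin n)) = {v, x, y}
        rw [← h5, Finset.pair_comm]
    have h2 := card_le_card h1
    have h3 : ((univ : Finset (Fin n × Fin n)).image
        fun p => ({p.1, p.2, g p.1 p.2} : Finset (Fin n))).card ≤ n * n := by
      refine card_image_le.trans ?_
      rw [card_univ, Fintype.card_prod, Fintype.card_fin]
    exact h2.trans h3
  have hH'H : H' ⊆ H := filter_subset _ _
  let E : Fin n → Fin n → Fin n → ℕ := fun x y z =>
    if ({x, y, z} : Finset (Fin n)) ∈ H' then 1 else 0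
  have hE : ∀ x y z, E x y z = 1 ↔ ({x, y, z} : Finset (Fin n)) ∈ H' := by
    intro x y z
    show (if ({x, y, z} : Finset (Fin n)) ∈ H' then 1 else 0) = 1 ↔ _
    split_ifs with h1 <;> simp [h1]
  have hflag := hFLAG (Fin n) inferInstance c E
    (fun v x => by
      show h v x % 2 = 0 ∨ h v x % 2 = 1
      omega)
    (fun x y z => by
      show (if ({x, y, z} : Finset (Fin n)) ∈ H' then 1 else 0) = 0 ∨
        (if ({x, y, z} : Finset (Fin n)) ∈ H' then 1 else 0) = 1
      split_ifs <;> simp)
    (fun x y z => by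
      show (if ({y, x, z} : Finset (Fin n)) ∈ H' then 1 else 0) =
        if ({x, y, z} : Finset (Fin n)) ∈ H' then 1 else 0
      rw [Finset.insert_comm])
    (fun x y z => by
      show (if ({x, z, y} : Finset (Fin n)) ∈ H' then 1 else 0) =
        if ({x, y, z} : Finset (Fin n)) ∈ H' then 1 else 0
      rw [Finset.pair_comm z y])
    (fun v x y h1 => (mem_filter.1 ((hE v x y).1 h1)).2 v x y rfl)
    (fun a b x y z => by
      rintro ⟨h1, h2, h3, h4⟩
      rw [hE] at h1 h2 h3 h4
      have k1 := ne_of_card3 (hH3 _ (hH'H h1))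
      have k2 := ne_of_card3 (hH3 _ (hH'H h2))
      have k3 := ne_of_card3 (hH3 _ (hH'H h3))
      have k4 := ne_of_card3 (hH3 _ (hH'H h4))
      have hswap : ∀ w, ({a, b, w} : Finset (Fin n)) = {w, a, b} := by
        intro w
        rw [Finset.pair_comm b w, Finset.insert_comm]
      rw [hswap] at h1 h2 h3
      apply hHF
      exact ⟨![x, y, z, a, b], inj5 k4.1 k4.2.1 k4.2.2 k1.2.1.symm k1.2.2.symm k2.2.1.symm
        k2.2.2.symm k3.2.1.symm k3.2.2.symm k1.1, hH'H h4, hH'H h1, hH'H h2, hH'H h3⟩)
  rw [Fintype.card_fin] at hflag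
  have hcount : 6 * H'.card ≤ ∑ x, ∑ y, ∑ z, E x y z := by
    have h1 : ∑ x, ∑ y, ∑ z, E x y z =
        (univ.filter fun p : Fin n × Fin n × Fin n =>
          ({p.1, p.2.1, p.2.2} : Finset (Fin n)) ∈ H').card := by
      rw [card_filter, Fintype.sum_prod_type]
      apply sum_congr rfl
      intro x _
      rw [Fintype.sum_prod_type]
    have h2 := card_eq_sum_card_fiberwise (f := fun p : Fin n × Fin n × Fin n =>
      ({p.1, p.2.1, p.2.2} : Finset (Fin n)))
      (s := univ.filter fun p : Fin n × Fin n × Fin n =>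
          ({p.1, p.2.1, p.2.2} : Finset (Fin n)) ∈ H') (t := H')
      (fun p hp => (mem_filter.1 (mem_coe.1 hp)).2)
    rw [h1, h2, mul_comm, ← smul_eq_mul, ← sum_const]
    apply sum_le_sum
    intro e he
    refine (six_le e (hH3 e (hH'H he))).trans (card_le_card ?_)
    intro p hp
    rw [mem_filter] at hp
    rw [mem_filter, mem_filter]
    exact ⟨⟨mem_univ _, by rw [hp.2]; exact he⟩, hp.2⟩
  have hsplit : H.card = (H \ H').card + H'.card := (card_sdiff_add_card_eq_card hH'H).symm
  have hn2 : n ^ 2 = n * n := by ring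
  rw [hn2]
  omega

end Pool.Agent.Y43.LB
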